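import Mathlib

/-!
# Counting partitions with and without given parts
-/

namespace Run7.h355.Hook

/-- The number of partitions of `n` whose multiset of parts satisfies `φ`. -/
noncomputable def cntP (n : ℕ) (φ : Multiset ℕ → Prop) : ℕ :=
  Nat.card {l : n.Partition // φ l.parts}

/-- Removing one copy of the part `s`. -/
def removeEquiv (m s : ℕ) (hs : 1 ≤ s) (φ : Multiset ℕ → Prop) :
    {l : (m + s).Partition // s ∈ l.parts ∧ φ l.parts} ≃
      {l : m.Partition // φ (s ::ₘ l.parts)} where
  toFun l := ⟨⟨l.1.parts.erase s, fun hi => l.1.parts_pos (Multiset.mem_of_mem_erase hi), by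
      have h := l.1.parts_sum
      rw [← Multiset.cons_erase l.2.1, Multiset.sum_cons] at h
      omega⟩, by
      simp only [Multiset.cons_erase l.2.1]
      exact l.2.2⟩
  invFun l := ⟨⟨s ::ₘ l.1.parts, by
      intro i hi
      rcases Multiset.mem_cons.1 hi with h | h
      · omega
      · exact l.1.parts_pos h, by
      rw [Multiset.sum_cons, l.1.parts_sum, add_comm]⟩, Multiset.mem_cons_self _ _, l.2⟩
  left_inv l := by
    apply Subtype.ext
    apply Nat.Partition.ext
    exact Multiset.cons_erase l.2.1
  right_inv l := by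
    apply Subtype.ext
    apply Nat.Partition.ext
    exact Multiset.erase_cons_head _ _

theorem cntP_mem (n s : ℕ) (hs : 1 ≤ s) (φ : Multiset ℕ → Prop) :
    cntP n (fun M => s ∈ M ∧ φ M) = if s ≤ n then cntP (n - s) (fun M => φ (s ::ₘ M)) else 0 := by
  split_ifs with h
  · obtain ⟨m, rfl⟩ : ∃ m, n = m + s := ⟨n - s, by omega⟩
    rw [Nat.add_sub_cancel]
    exact Nat.card_congr (removeEquiv m s hs φ)
  · unfold cntP
    have : IsEmpty {l : n.Partition // s ∈ l.parts ∧ φ l.parts} := by
      refine ⟨fun l => h ?_⟩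
      have := Multiset.single_le_sum (s := l.1.parts) (fun _ _ => Nat.zero_le _) s l.2.1
      rwa [l.1.parts_sum] at this
    exact Nat.card_of_isEmpty

theorem cntP_congr (n : ℕ) {φ ψ : Multiset ℕ → Prop} (h : ∀ l : n.Partition, φ l.parts ↔ ψ l.parts) :
    cntP n φ = cntP n ψ :=
  Nat.card_congr (Equiv.subtypeEquivRight h)

theorem cntP_le_of_imp (n : ℕ) {φ ψ : Multiset ℕ → Prop}
    (h : ∀ l : n.Partition, φ l.parts → ψ l.parts) : cntP n φ ≤ cntP n ψ :=
  Nat.card_le_card_of_injective
    (fun l : {l : n.Partition // φ l.parts} => (⟨l.1, h l.1 l.2⟩ : {l : n.Partition // ψ l.parts}))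
    (fun a b hab => Subtype.ext (congrArg (fun x : {l : n.Partition // ψ l.parts} => x.1) hab))

theorem cntP_false (n : ℕ) {φ : Multiset ℕ → Prop} (h : ∀ l : n.Partition, ¬ φ l.parts) :
    cntP n φ = 0 := by
  unfold cntP
  have : IsEmpty {l : n.Partition // φ l.parts} := ⟨fun l => h l.1 l.2⟩
  exact Nat.card_of_isEmpty

theorem cntP_split (n : ℕ) (φ ψ : Multiset ℕ → Prop) :
    cntP n φ = cntP n (fun M => ψ M ∧ φ M) + cntP n (fun M => ¬ ψ M ∧ φ M) := by
  classical
  unfold cntP
  rw [Nat.card_eq_fintype_card, Nat.card_eq_fintype_card, Nat.card_eq_fintype_card,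
    Fintype.card_subtype, Fintype.card_subtype, Fintype.card_subtype]
  rw [← Finset.card_filter_add_card_filter_not
    (s := Finset.univ.filter fun l : n.Partition => φ l.parts)
    (fun l : n.Partition => ψ l.parts), Finset.filter_filter, Finset.filter_filter]
  congr 2 <;> (ext l; simp [and_comm])

/-- No part is divisible by `t` and no part equals `e`. -/
def RegE (t e : ℕ) (M : Multiset ℕ) : Prop := ∀ p ∈ M, ¬ t ∣ p ∧ p ≠ e

/-- Replace all factors `u` of `p` by `t`. -/
def tr (t u : ℕ) (p : ℕ) : ℕ :=
  if _h : u ∣ p ∧ p ≠ 0 ∧ 2 ≤ u then t * tr t u (p / u) else p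
termination_by p
decreasing_by exact Nat.div_lt_self (by omega) (by omega)

theorem tr_pos (t u : ℕ) (ht : 1 ≤ t) (p : ℕ) (hp : 1 ≤ p) : 1 ≤ tr t u p := by
  induction p using Nat.strong_induction_on with
  | _ p ih =>
    rw [tr]
    split_ifs with h
    · obtain ⟨⟨q, rfl⟩, h0, hu⟩ := h
      rw [Nat.mul_div_cancel_left q (by omega)]
      have hq : 1 ≤ q := by
        rcases Nat.eq_zero_or_pos q with h | h
        · subst h; simp at h0
        · exact h
      have := ih q (by nlinarith) hq
      nlinarith
    · exact hp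

theorem tr_le (t u : ℕ) (htu : t ≤ u) (p : ℕ) : tr t u p ≤ p := by
  induction p using Nat.strong_induction_on with
  | _ p ih =>
    rw [tr]
    split_ifs with h
    · obtain ⟨⟨q, rfl⟩, h0, hu⟩ := h
      rw [Nat.mul_div_cancel_left q (by omega)]
      have hq : 1 ≤ q := by
        rcases Nat.eq_zero_or_pos q with h | h
        · subst h; simp at h0
        · exact h
      have := ih q (by nlinarith)
      exact Nat.mul_le_mul htu this
    · exact le_rfl

theorem tr_back (t u : ℕ) (ht : 2 ≤ t) (hu : 2 ≤ u) (p : ℕ) (hp : ¬ t ∣ p) :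
    tr u t (tr t u p) = p := by
  induction p using Nat.strong_induction_on with
  | _ p ih =>
    rw [tr.eq_1 t u p]
    split_ifs with h
    · obtain ⟨⟨q, rfl⟩, h0, _⟩ := h
      rw [Nat.mul_div_cancel_left q (by omega)]
      have hq : 1 ≤ q := by
        rcases Nat.eq_zero_or_pos q with h | h
        · subst h; simp at h0
        · exact h
      have hq' : ¬ t ∣ q := fun h => hp (Dvd.dvd.mul_left h u)
      rw [tr]
      have h1 := tr_pos t u (by omega) q hq
      rw [dif_pos ⟨Dvd.intro _ rfl, by positivity, ht⟩, Nat.mul_div_cancel_left _ (by omega),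
        ih q (by nlinarith) hq']
    · rw [tr, dif_neg]
      rintro ⟨h1, -⟩
      exact hp h1

theorem tr_reg (t u : ℕ) (hu : 2 ≤ u) (hco : Nat.Coprime u t) (p : ℕ) (hp : 1 ≤ p) :
    ¬ u ∣ tr t u p := by
  induction p using Nat.strong_induction_on with
  | _ p ih =>
    rw [tr]
    split_ifs with h
    · obtain ⟨⟨q, rfl⟩, h0, _⟩ := h
      rw [Nat.mul_div_cancel_left q (by omega)]
      have hq : 1 ≤ q := by
        rcases Nat.eq_zero_or_pos q with h | h
        · subst h; simp at h0
        · exact h
      intro hd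
      exact ih q (by nlinarith) hq (hco.dvd_of_dvd_mul_left hd)
    · intro hd
      exact h ⟨hd, by omega, hu⟩

theorem tr_ne (t u e : ℕ) (ht : t ∣ e → e = 0) (p : ℕ) (hp : 1 ≤ p) (hpe : p ≠ e) (ht1 : 1 ≤ t) :
    tr t u p ≠ e := by
  intro h
  have h1 := tr_pos t u ht1 p hp
  rw [tr] at h h1
  split_ifs at h h1 with hc
  · have : t ∣ e := ⟨_, h.symm⟩
    have := ht this
    omega
  · exact hpe h

theorem cntP_inj (t u e n : ℕ) (ht : 2 ≤ t) (htu : t ≤ u) (hco : Nat.Coprime u t)
    (he : t ∣ e → e = 0) (he1 : e ≠ 1) : cntP n (RegE t e) ≤ cntP n (RegE u e) := by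
  classical
  have hu : 2 ≤ u := le_trans ht htu
  -- the non-one parts
  let A : Multiset ℕ → Multiset ℕ := fun M => (M.filter (fun p => p ≠ 1)).map (tr t u)
  have hAsum : ∀ M : Multiset ℕ, (A M).sum ≤ M.sum := by
    intro M
    calc (A M).sum ≤ (M.filter (fun p => p ≠ 1)).sum := by
          have := Multiset.sum_map_le_sum_map (s := M.filter (fun p => p ≠ 1)) (tr t u) id
            (fun p _ => tr_le t u htu p)
          simpa using this
      _ ≤ M.sum := by
          obtain ⟨R, hR⟩ := Multiset.le_iff_exists_add.1 (Multiset.filter_le (fun p => p ≠ 1) M)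
          conv_rhs => rw [hR]
          rw [Multiset.sum_add]
          exact Nat.le_add_right _ _
  have hone : ∀ p, 1 ≤ p → (tr t u p = 1 ↔ p = 1) := by
    intro p hp
    constructor
    · intro h
      by_contra hne
      exact tr_ne t u 1 (fun h => by have := Nat.le_of_dvd one_pos h; omega) p hp hne (by omega) h
    · rintro rfl
      rw [tr, dif_neg]
      rintro ⟨h, -⟩
      have := Nat.le_of_dvd one_pos h
      omega
  let Φ : n.Partition → n.Partition := fun l =>
    ⟨A l.parts + Multiset.replicate (n - (A l.parts).sum) 1, by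
      intro i hi
      rcases Multiset.mem_add.1 hi with h | h
      · obtain ⟨p, hp, rfl⟩ := Multiset.mem_map.1 h
        exact tr_pos t u (by omega) p (l.parts_pos (Multiset.mem_of_mem_filter hp))
      · rw [Multiset.eq_of_mem_replicate h]
        exact one_pos, by
      have := hAsum l.parts
      rw [l.parts_sum] at this
      simp only [Multiset.sum_add, Multiset.sum_replicate, smul_eq_mul, mul_one]
      omega⟩
  have hΦ : ∀ l : n.Partition, RegE t e l.parts → RegE u e (Φ l).parts := by
    intro l hl p hp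
    rcases Multiset.mem_add.1 hp with h | h
    · obtain ⟨q, hq, rfl⟩ := Multiset.mem_map.1 h
      have hq' := Multiset.mem_of_mem_filter hq
      have hq1 := l.parts_pos hq'
      exact ⟨tr_reg t u hu hco q hq1, tr_ne t u e he q hq1 (hl q hq').2 (by omega)⟩
    · rw [Multiset.eq_of_mem_replicate h]
      refine ⟨fun h => ?_, fun h => he1 h.symm⟩
      have := Nat.le_of_dvd one_pos h
      omega
  have hfil : ∀ l : n.Partition, (Φ l).parts.filter (fun p => p ≠ 1) = A l.parts := by
    intro l
    change (A l.parts + Multiset.replicate _ 1).filter _ = _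
    rw [Multiset.filter_add]
    have h1 : (A l.parts).filter (fun p => p ≠ 1) = A l.parts := by
      rw [Multiset.filter_eq_self]
      intro a ha
      obtain ⟨q, hq, rfl⟩ := Multiset.mem_map.1 ha
      have hq1 := l.parts_pos (Multiset.mem_of_mem_filter hq)
      intro h
      exact (Multiset.mem_filter.1 hq).2 ((hone q hq1).1 h)
    have h2 : (Multiset.replicate (n - (A l.parts).sum) 1).filter (fun p => p ≠ 1) = 0 := by
      rw [Multiset.filter_eq_nil]
      intro a ha
      simp [Multiset.eq_of_mem_replicate ha]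
    rw [h1, h2, add_zero]
  have hback : ∀ l : n.Partition, RegE t e l.parts →
      (A l.parts).map (tr u t) = l.parts.filter (fun p => p ≠ 1) := by
    intro l hl
    change Multiset.map _ (Multiset.map _ _) = _
    rw [Multiset.map_map]
    conv_rhs => rw [← Multiset.map_id (l.parts.filter (fun p => p ≠ 1))]
    apply Multiset.map_congr rfl
    intro p hp
    exact tr_back t u ht hu p (hl p (Multiset.mem_of_mem_filter hp)).1
  refine Nat.card_le_card_of_injective (fun l : {l : n.Partition // RegE t e l.parts} =>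
    (⟨Φ l.1, hΦ l.1 l.2⟩ : {l : n.Partition // RegE u e l.parts})) ?_
  intro a b hab
  have h1 : Φ a.1 = Φ b.1 := congrArg Subtype.val hab
  have h2 : a.1.parts.filter (fun p => p ≠ 1) = b.1.parts.filter (fun p => p ≠ 1) := by
    rw [← hback a.1 a.2, ← hback b.1 b.2, ← hfil a.1, ← hfil b.1, h1]
  have hs : ∀ l : n.Partition, l.parts = l.parts.filter (fun p => p ≠ 1) +
      Multiset.replicate (n - (l.parts.filter (fun p => p ≠ 1)).sum) 1 := by
    intro l
    have e1 := Multiset.filter_add_not (fun p => p ≠ 1) l.parts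
    have e2 : l.parts.filter (fun p => ¬ p ≠ 1) = Multiset.replicate (l.parts.count 1) 1 := by
      simp only [not_not]
      exact Multiset.filter_eq' l.parts 1
    have e3 := congrArg Multiset.sum e1
    rw [Multiset.sum_add, l.parts_sum, e2, Multiset.sum_replicate] at e3
    have e4 : n - (l.parts.filter (fun p => p ≠ 1)).sum = l.parts.count 1 := by
      simp only [smul_eq_mul, mul_one] at e3
      omega
    rw [e4, ← e2]
    exact e1.symm
  apply Subtype.ext
  apply Nat.Partition.ext
  rw [hs a.1, hs b.1, h2]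

end Run7.h355.Hook
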