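import Mathlib

/-!
# The linear inequality behind the monotonicity in `t` of the totals of `2`-hooks
-/

namespace Run7.h355.Hook

open Finset

/-- The functional expressing the total number of `2`-hooks through the numbers of `t`-regular
partitions of `n - k`. -/
def Phi (t : ℕ) (f : ℕ → ℤ) (N : ℕ) : ℤ :=
  2 * ∑ j ∈ range N, f (2 * j + 2) - ∑ m ∈ range (2 * N), f (t * (m + 1))
    - ∑ m ∈ range N, (f (2 * t * (m + 1)) - f (2 * t * (m + 1) - 1) - f (2 * t * (m + 1) + 1))

theorem sum_range_two_mul (a : ℕ → ℤ) (N : ℕ) :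
    ∑ m ∈ range (2 * N), a m = ∑ j ∈ range N, (a (2 * j) + a (2 * j + 1)) := by
  induction N with
  | zero => simp
  | succ N ih =>
    rw [show 2 * (N + 1) = 2 * N + 1 + 1 by ring, sum_range_succ, sum_range_succ, ih,
      sum_range_succ]
    ring

theorem sum_inj_le (F : ℕ → ℤ) (N M : ℕ) (hF : ∀ j, 0 ≤ F j) (hz : ∀ j, N ≤ j → F j = 0)
    (g : ℕ → ℕ) (hg : Set.InjOn g (range M : Finset ℕ)) :
    ∑ m ∈ range M, F (g m) ≤ ∑ j ∈ range N, F j := by
  classical
  rw [← Finset.sum_image (f := F) (g := g) (s := range M) hg]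
  calc ∑ x ∈ (range M).image g, F x ≤ ∑ x ∈ (range M).image g ∪ range N, F x :=
        sum_le_sum_of_subset_of_nonneg subset_union_left (fun _ _ _ => hF _)
    _ = ∑ j ∈ range N, F j := by
        symm
        apply sum_subset subset_union_right
        intro x _ hx
        exact hz x (by simpa using hx)

theorem anti_of (d : ℕ → ℤ) (s : ℕ) (h : ∀ k, d (k + s) ≤ d k) (i k : ℕ) :
    d (k + s * i) ≤ d k := by
  induction i with
  | zero => simp
  | succ i ih =>
    have := h (k + s * i)
    rw [show k + s * i + s = k + s * (i + 1) by ring] at this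
    exact this.trans ih

theorem Phi_nonneg (u N : ℕ) (hu : 4 ≤ u) (d : ℕ → ℤ) (hd : ∀ k, 0 ≤ d k)
    (hz : ∀ k, N < k → d k = 0) (h3 : u % 2 = 1 → ∀ k, d (k + 3) ≤ d k) : 0 ≤ Phi u d N := by
  have hF : ∀ j, 0 ≤ (fun j => d (2 * j + 2)) j := fun j => hd _
  have hFz : ∀ j, N ≤ j → (fun j => d (2 * j + 2)) j = 0 := fun j hj => hz _ (by omega)
  have hpos : ∀ m : ℕ, 4 ≤ u * (m + 1) := fun m => by nlinarith
  -- first sum
  have e1 : ∑ m ∈ range N, d (2 * u * (m + 1)) ≤ ∑ j ∈ range N, d (2 * j + 2) := by
    have := sum_inj_le (fun j => d (2 * j + 2)) N N hF hFz (fun m => u * (m + 1) - 1) (by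
      intro a _ b _ hab
      simp only at hab
      have ha := hpos a
      have hb := hpos b
      have : u * (a + 1) = u * (b + 1) := by omega
      have := Nat.eq_of_mul_eq_mul_left (by omega) this
      omega)
    refine le_trans (le_of_eq ?_) this
    apply sum_congr rfl
    intro m _
    congr 1
    have := hpos m
    have h2 : 2 * u * (m + 1) = 2 * (u * (m + 1)) := by ring
    omega
  -- second sum
  have e2 : ∑ m ∈ range (2 * N), d (u * (m + 1)) ≤ ∑ j ∈ range N, d (2 * j + 2) := by
    rcases Nat.even_or_odd' u with ⟨v, hv | hv⟩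
    · have := sum_inj_le (fun j => d (2 * j + 2)) N (2 * N) hF hFz (fun m => v * (m + 1) - 1) (by
        intro a _ b _ hab
        simp only at hab
        have ha : 1 ≤ v * (a + 1) := by nlinarith
        have hb : 1 ≤ v * (b + 1) := by nlinarith
        have : v * (a + 1) = v * (b + 1) := by omega
        have := Nat.eq_of_mul_eq_mul_left (by omega) this
        omega)
      refine le_trans (le_of_eq ?_) this
      apply sum_congr rfl
      intro m _
      congr 1
      have h1 : 1 ≤ v * (m + 1) := by nlinarith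
      have h2 : u * (m + 1) = 2 * (v * (m + 1)) := by rw [hv]; ring
      omega
    · have hu1 : u % 2 = 1 := by omega
      have hu5 : 5 ≤ u := by omega
      have h3' := h3 hu1
      -- split in odd and even multiples
      rw [sum_range_two_mul]
      have key : ∀ j ∈ range N, d (u * (2 * j + 1)) + d (u * (2 * j + 1 + 1)) ≤
          d (2 * ((u * (2 * j + 1) - 5) / 2) + 2) + d (2 * (u * (j + 1) - 1) + 2) := by
        intro j _
        have h5 : 5 ≤ u * (2 * j + 1) := le_trans hu5 (Nat.le_mul_of_pos_right u (by omega))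
        have hodd : u * (2 * j + 1) % 2 = 1 := by
          rw [Nat.mul_mod, hu1]; omega
        have a1 : d (u * (2 * j + 1)) ≤ d (2 * ((u * (2 * j + 1) - 5) / 2) + 2) := by
          have := h3' (2 * ((u * (2 * j + 1) - 5) / 2) + 2)
          rwa [show 2 * ((u * (2 * j + 1) - 5) / 2) + 2 + 3 = u * (2 * j + 1) by omega] at this
        have a2 : d (u * (2 * j + 1 + 1)) = d (2 * (u * (j + 1) - 1) + 2) := by
          congr 1
          have := hpos j
          have h2 : u * (2 * j + 1 + 1) = 2 * (u * (j + 1)) := by ring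
          omega
        linarith
      refine le_trans (sum_le_sum key) ?_
      have hsp : ∑ j ∈ range N, (d (2 * ((u * (2 * j + 1) - 5) / 2) + 2)
          + d (2 * (u * (j + 1) - 1) + 2)) =
          ∑ m ∈ range (2 * N), (fun j => d (2 * j + 2))
            ((fun m => if m % 2 = 0 then (u * (m + 1) - 5) / 2 else u * ((m + 1) / 2) - 1) m) := by
        rw [sum_range_two_mul]
        apply sum_congr rfl
        intro j _
        have q1 : (2 * j) % 2 = 0 := by omega
        have q2 : ¬ (2 * j + 1) % 2 = 0 := by omega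
        have q3 : (2 * j + 1 + 1) / 2 = j + 1 := by omega
        simp only [q1, q2, q3, if_true, if_false]
      rw [hsp]
      apply sum_inj_le _ N (2 * N) hF hFz
      intro a _ b _ hab
      simp only at hab
      have h5a : 5 ≤ u * (a + 1) := le_trans hu5 (Nat.le_mul_of_pos_right u (by omega))
      have h5b : 5 ≤ u * (b + 1) := le_trans hu5 (Nat.le_mul_of_pos_right u (by omega))
      by_cases ha : a % 2 = 0 <;> by_cases hb : b % 2 = 0
      · simp only [ha, hb, if_true] at hab
        have oa : u * (a + 1) % 2 = 1 := by rw [Nat.mul_mod, hu1]; omega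
        have ob : u * (b + 1) % 2 = 1 := by rw [Nat.mul_mod, hu1]; omega
        have : u * (a + 1) = u * (b + 1) := by omega
        have := Nat.eq_of_mul_eq_mul_left (by omega) this
        omega
      · exfalso
        simp only [ha, hb, if_true, if_false] at hab
        have oa : u * (a + 1) % 2 = 1 := by rw [Nat.mul_mod, hu1]; omega
        have hb' : b + 1 = 2 * ((b + 1) / 2) := by omega
        set q := (b + 1) / 2 with hq
        have hq1 : 1 ≤ q := by omega
        have h4 : 4 ≤ u * q := by nlinarith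
        have e : u * (a + 1) = 2 * (u * q) + 3 := by omega
        have : u ∣ 3 := by
          have d1 : u ∣ u * (a + 1) := Dvd.intro _ rfl
          have d2 : u ∣ 2 * (u * q) := ⟨2 * q, by ring⟩
          rw [e] at d1
          exact (Nat.dvd_add_right d2).1 d1
        have := Nat.le_of_dvd (by norm_num) this
        omega
      · exfalso
        simp only [ha, hb, if_true, if_false] at hab
        have ob : u * (b + 1) % 2 = 1 := by rw [Nat.mul_mod, hu1]; omega
        have ha' : a + 1 = 2 * ((a + 1) / 2) := by omega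
        set q := (a + 1) / 2 with hq
        have hq1 : 1 ≤ q := by omega
        have h4 : 4 ≤ u * q := by nlinarith
        have e : u * (b + 1) = 2 * (u * q) + 3 := by omega
        have : u ∣ 3 := by
          have d1 : u ∣ u * (b + 1) := Dvd.intro _ rfl
          have d2 : u ∣ 2 * (u * q) := ⟨2 * q, by ring⟩
          rw [e] at d1
          exact (Nat.dvd_add_right d2).1 d1
        have := Nat.le_of_dvd (by norm_num) this
        omega
      · simp only [ha, hb, if_false] at hab
        have ha' : a + 1 = 2 * ((a + 1) / 2) := by omega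
        have hb' : b + 1 = 2 * ((b + 1) / 2) := by omega
        set p := (a + 1) / 2 with hp
        set q := (b + 1) / 2 with hq
        have hp1 : 1 ≤ p := by omega
        have hq1 : 1 ≤ q := by omega
        have h4 : 4 ≤ u * p := by nlinarith
        have h4' : 4 ≤ u * q := by nlinarith
        have : u * p = u * q := by omega
        have := Nat.eq_of_mul_eq_mul_left (by omega) this
        omega
  have e3 : 0 ≤ ∑ m ∈ range N, d (2 * u * (m + 1) - 1) := sum_nonneg fun _ _ => hd _
  have e4 : 0 ≤ ∑ m ∈ range N, d (2 * u * (m + 1) + 1) := sum_nonneg fun _ _ => hd _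
  unfold Phi
  rw [sum_sub_distrib, sum_sub_distrib]
  linarith

theorem Phi_mono (t N : ℕ) (ht : 3 ≤ t) (f : ℕ → ℤ) (hc : ∀ k, f (k + 1) ≤ f k)
    (h2 : ∀ k, f (k + 2) - f (k + 2 + 1) ≤ f k - f (k + 1))
    (ht1 : ∀ k, f (k + (t - 1)) - f (k + (t - 1) + 1) ≤ f k - f (k + 1)) :
    Phi t f N ≤ Phi (t + 1) f N := by
  unfold Phi
  rw [sum_range_two_mul, sum_range_two_mul]
  have key : ∀ j ∈ range N,
      (f ((t + 1) * (2 * j + 1)) + f ((t + 1) * (2 * j + 1 + 1)))
        + (f (2 * (t + 1) * (j + 1)) - f (2 * (t + 1) * (j + 1) - 1)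
          - f (2 * (t + 1) * (j + 1) + 1)) ≤
      (f (t * (2 * j + 1)) + f (t * (2 * j + 1 + 1)))
        + (f (2 * t * (j + 1)) - f (2 * t * (j + 1) - 1) - f (2 * t * (j + 1) + 1)) := by
    intro j _
    set K := t * (2 * j + 1) with hK
    obtain ⟨r, rfl⟩ : ∃ r, t = r + 1 := ⟨t - 1, by omega⟩
    have c1 : (r + 1 + 1) * (2 * j + 1) = K + 2 * j + 1 := by rw [hK]; ring
    have c2 : (r + 1 + 1) * (2 * j + 1 + 1) = K + r + 2 * j + 3 := by rw [hK]; ring
    have c3 : 2 * (r + 1 + 1) * (j + 1) = K + r + 2 * j + 3 := by rw [hK]; ring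
    have c4 : (r + 1) * (2 * j + 1 + 1) = K + r + 1 := by rw [hK]; ring
    have c5 : 2 * (r + 1) * (j + 1) = K + r + 1 := by rw [hK]; ring
    rw [c1, c2, c3, c4, c5]
    have s1 : K + r + 2 * j + 3 - 1 = K + r + 2 * j + 2 := by omega
    have s2 : K + r + 1 - 1 = K + r := by omega
    rw [s1, s2]
    -- facts
    have g1 : f (K + 2 * j + 1) ≤ f (K + 1) := by
      have := anti_of f 1 hc (2 * j) (K + 1)
      rwa [show K + 1 + 1 * (2 * j) = K + 2 * j + 1 by ring] at this
    have g2 : f (K + r) - f (K + r + 1) ≤ f K - f (K + 1) := by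
      have := ht1 K
      simpa using this
    have g3 : f (K + r + 2 * j + 3) - f (K + r + 2 * j + 3 + 1) ≤
        f (K + r + 1) - f (K + r + 1 + 1) := by
      have := anti_of (fun k => f k - f (k + 1)) 2 h2 (j + 1) (K + r + 1)
      rwa [show K + r + 1 + 2 * (j + 1) = K + r + 2 * j + 3 by ring] at this
    have g4 := hc (K + r + 2 * j + 2)
    rw [show K + r + 2 * j + 2 + 1 = K + r + 2 * j + 3 by ring] at g4
    linarith
  have := sum_le_sum key
  simp only [sum_add_distrib, sum_sub_distrib] at this ⊢
  linarith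

theorem sum_mult (t N A M : ℕ) (ht : 1 ≤ t) (F : ℕ → ℤ) (hz : ∀ k, N < k → F k = 0)
    (hA : N ≤ A) (hM : N ≤ M) :
    ∑ j ∈ range A, (if t ∣ j + 1 then F (j + 1) else 0) = ∑ m ∈ range M, F (t * (m + 1)) := by
  classical
  have h1 : ∑ j ∈ range A, (if t ∣ j + 1 then F (j + 1) else 0)
      = ∑ j ∈ (range N).filter (fun j => t ∣ j + 1), F (j + 1) := by
    rw [sum_filter]
    symm
    apply sum_subset (range_subset_range.2 hA)
    intro x _ hx
    have : N < x + 1 := by
      have : ¬ x < N := by simpa using hx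
      omega
    rw [hz _ this]
    simp
  have h2 : ∑ m ∈ range M, F (t * (m + 1))
      = ∑ x ∈ (range M).image (fun m => t * (m + 1) - 1), F (x + 1) := by
    rw [sum_image]
    · apply sum_congr rfl
      intro m _
      congr 1
      have : 1 ≤ t * (m + 1) := by nlinarith
      omega
    · intro a _ b _ hab
      simp only at hab
      have ha : 1 ≤ t * (a + 1) := by nlinarith
      have hb : 1 ≤ t * (b + 1) := by nlinarith
      have : t * (a + 1) = t * (b + 1) := by omega
      have := Nat.eq_of_mul_eq_mul_left (by omega) this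
      omega
  rw [h1, h2]
  apply sum_subset
  · intro x hx
    rw [mem_filter, mem_range] at hx
    obtain ⟨hx1, q, hq⟩ := hx
    rw [mem_image]
    have hq0 : q ≠ 0 := by rintro rfl; simp at hq
    refine ⟨q - 1, ?_, ?_⟩
    · rw [mem_range]
      have : q ≤ t * q := Nat.le_mul_of_pos_left q (by omega)
      omega
    · rw [show q - 1 + 1 = q by omega, ← hq]
      simp
  · intro x hx hx'
    rw [mem_image] at hx
    obtain ⟨m, _, rfl⟩ := hx
    apply hz
    have h1 : 1 ≤ t * (m + 1) := by nlinarith
    by_contra hcon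
    apply hx'
    rw [mem_filter, mem_range]
    refine ⟨by omega, ?_⟩
    rw [show t * (m + 1) - 1 + 1 = t * (m + 1) by omega]
    exact Dvd.intro _ rfl

theorem star (t N : ℕ) (ht : 2 ≤ t) (f : ℕ → ℤ) (hz : ∀ k, N < k → f k = 0) :
    ∑ j ∈ range N, ((if t ∣ j + 1 then 0 else f (2 * j + 2)) +
      (if t ∣ j + 2 then 0 else (f (j + 2) - (if t ∣ j + 1 then 0 else f (2 * j + 3))))) =
      Phi t f N := by
  have hterm : ∀ j ∈ range N, ((if t ∣ j + 1 then 0 else f (2 * j + 2)) +
      (if t ∣ j + 2 then 0 else (f (j + 2) - (if t ∣ j + 1 then 0 else f (2 * j + 3))))) =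
      (f (2 * j + 2) + f (j + 2) - f (2 * j + 3)) - (if t ∣ j + 1 then f (2 * (j + 1)) else 0)
        - (if t ∣ j + 1 + 1 then f (j + 1 + 1) else 0)
        + (if t ∣ j + 1 + 1 then f (2 * (j + 1 + 1) - 1) else 0)
        + (if t ∣ j + 1 then f (2 * (j + 1) + 1) else 0) := by
    intro j _
    have e1 : 2 * (j + 1) = 2 * j + 2 := by ring
    have e2 : 2 * (j + 1 + 1) - 1 = 2 * j + 3 := by omega
    have e3 : j + 1 + 1 = j + 2 := by ring
    rw [e2, e1, e3]
    by_cases h1 : t ∣ j + 1 <;> by_cases h2 : t ∣ j + 2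
    · exfalso
      have : t ∣ 1 := by
        have h := (Nat.dvd_add_right h1).1 (show t ∣ (j + 1) + 1 from h2)
        exact h
      have := Nat.le_of_dvd one_pos this
      omega
    · simp only [h1, h2, if_true, if_false]; ring
    · simp only [h1, h2, if_true, if_false]; ring
    · simp only [h1, h2, if_false]; ring
  rw [sum_congr rfl hterm]
  simp only [sum_add_distrib, sum_sub_distrib]
  have t1 : ¬ t ∣ 0 + 1 := by
    intro h
    have := Nat.le_of_dvd one_pos (by simpa using h)
    omega
  -- S1
  have S1 : ∑ j ∈ range N, (if t ∣ j + 1 then f (2 * (j + 1)) else 0)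
      = ∑ m ∈ range N, f (2 * t * (m + 1)) := by
    rw [sum_mult t N N N (by omega) (fun k => f (2 * k)) (fun k hk => hz _ (by omega)) le_rfl le_rfl]
    apply sum_congr rfl
    intro m _
    congr 1
    ring
  have S2 : ∑ j ∈ range N, (if t ∣ j + 1 + 1 then f (j + 1 + 1) else 0)
      = ∑ m ∈ range (2 * N), f (t * (m + 1)) := by
    have := sum_mult t N (N + 1) (2 * N) (by omega) f hz (by omega) (by omega)
    rw [sum_range_succ', if_neg t1, add_zero] at this
    exact this
  have S3 : ∑ j ∈ range N, (if t ∣ j + 1 + 1 then f (2 * (j + 1 + 1) - 1) else 0)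
      = ∑ m ∈ range N, f (2 * t * (m + 1) - 1) := by
    have := sum_mult t N (N + 1) N (by omega) (fun k => f (2 * k - 1))
      (fun k hk => hz _ (by omega)) (by omega) (by omega)
    rw [sum_range_succ', if_neg t1, add_zero] at this
    rw [this]
    apply sum_congr rfl
    intro m _
    congr 1
    rw [show 2 * (t * (m + 1)) = 2 * t * (m + 1) by ring]
  have S4 : ∑ j ∈ range N, (if t ∣ j + 1 then f (2 * (j + 1) + 1) else 0)
      = ∑ m ∈ range N, f (2 * t * (m + 1) + 1) := by
    rw [sum_mult t N N N (by omega) (fun k => f (2 * k + 1)) (fun k hk => hz _ (by omega)) le_rfl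
      le_rfl]
    apply sum_congr rfl
    intro m _
    congr 1
    ring
  have S0 : ∑ j ∈ range N, f (j + 2) = ∑ j ∈ range N, f (2 * j + 2) + ∑ j ∈ range N, f (2 * j + 3) := by
    have h1 : ∑ j ∈ range N, f (j + 2) = ∑ j ∈ range (2 * N), f (j + 2) := by
      apply sum_subset (range_subset_range.2 (by omega))
      intro x _ hx
      apply hz
      have : ¬ x < N := by simpa using hx
      omega
    rw [h1, sum_range_two_mul, sum_add_distrib]
  rw [S1, S2, S3, S4, S0]
  unfold Phi
  rw [sum_sub_distrib, sum_sub_distrib]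
  ring

end Run7.h355.Hook
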