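import Mathlib
import Pool.Agent.Run7.h355.Hook.Ineq
import Pool.Agent.Run7.h355.Hook.Count

/-!
# Sequences of partition counts
-/

namespace Run7.h355.Hook

open Finset

/-- The number of partitions of `n - k` with property `φ`, and `0` for `k > n`. -/
noncomputable def gz (φ : Multiset ℕ → Prop) (n k : ℕ) : ℤ :=
  if k ≤ n then (cntP (n - k) φ : ℤ) else 0

/-- All parts are not divisible by `t`. -/
def R (t : ℕ) (M : Multiset ℕ) : Prop := ∀ p ∈ M, ¬ t ∣ p

theorem R_cons (t s : ℕ) (M : Multiset ℕ) : R t (s ::ₘ M) ↔ ¬ t ∣ s ∧ R t M := by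
  simp [R]

theorem gz_nonneg (φ : Multiset ℕ → Prop) (n k : ℕ) : 0 ≤ gz φ n k := by
  unfold gz
  split_ifs
  · positivity
  · exact le_rfl

theorem gz_zero (φ : Multiset ℕ → Prop) (n k : ℕ) (h : n < k) : gz φ n k = 0 := by
  unfold gz
  rw [if_neg (by omega)]

/-- The count of partitions of `n` containing `s` with property `φ`. -/
theorem cast_cntP_mem (n s : ℕ) (hs : 1 ≤ s) (φ : Multiset ℕ → Prop) :
    (cntP n (fun M => s ∈ M ∧ φ M) : ℤ) = gz (fun M => φ (s ::ₘ M)) n s := by
  rw [cntP_mem n s hs φ]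
  unfold gz
  split_ifs <;> simp

theorem gz_split (n k s : ℕ) (hs : 1 ≤ s) (φ : Multiset ℕ → Prop)
    (h : ∀ M, φ (s ::ₘ M) ↔ φ M) :
    gz φ n k - gz φ n (k + s) = gz (fun M => ¬ s ∈ M ∧ φ M) n k := by
  unfold gz
  by_cases hk : k ≤ n
  · rw [if_pos hk, if_pos hk, cntP_split (n - k) φ (fun M => s ∈ M)]
    push_cast
    rw [cast_cntP_mem _ _ hs]
    unfold gz
    by_cases hk2 : k + s ≤ n
    · rw [if_pos (by omega), if_pos hk2, show n - k - s = n - (k + s) by omega,
        cntP_congr (n - (k + s)) (φ := fun M => φ (s ::ₘ M)) (ψ := φ) (fun l => h _)]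
      ring
    · rw [if_neg (by omega), if_neg hk2]
      ring
  · rw [if_neg hk, if_neg hk, if_neg (by omega)]
    ring

theorem gz_anti (n k s : ℕ) (hs : 1 ≤ s) (φ : Multiset ℕ → Prop)
    (h : ∀ M, φ (s ::ₘ M) ↔ φ M) : gz φ n (k + s) ≤ gz φ n k := by
  have := gz_split n k s hs φ h
  have := gz_nonneg (fun M => ¬ s ∈ M ∧ φ M) n k
  linarith

theorem R_iff {n : ℕ} (t : ℕ) (l : n.Partition) : R t l.parts ↔ RegE t 0 l.parts := by
  constructor
  · intro h p hp
    exact ⟨h p hp, (l.parts_pos hp).ne'⟩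
  · intro h p hp
    exact (h p hp).1

theorem R3_iff {n : ℕ} (t : ℕ) (l : n.Partition) :
    (¬ 3 ∈ l.parts ∧ R t l.parts) ↔ RegE t 3 l.parts := by
  constructor
  · rintro ⟨h3, h⟩ p hp
    exact ⟨h p hp, fun e => h3 (e ▸ hp)⟩
  · intro h
    exact ⟨fun h3 => (h 3 h3).2 rfl, fun p hp => (h p hp).1⟩

theorem gz_R_le (t n k : ℕ) (ht : 2 ≤ t) : gz (R t) n k ≤ gz (R (t + 1)) n k := by
  unfold gz
  split_ifs
  · rw [cntP_congr (n - k) (fun l => R_iff t l), cntP_congr (n - k) (fun l => R_iff (t + 1) l)]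
    exact_mod_cast cntP_inj t (t + 1) 0 (n - k) ht (by omega) (by simp) (by simp) (by simp)
  · exact le_rfl

theorem gz_R3_le (t n k : ℕ) (ht : 4 ≤ t) :
    gz (fun M => ¬ 3 ∈ M ∧ R t M) n k ≤ gz (fun M => ¬ 3 ∈ M ∧ R (t + 1) M) n k := by
  unfold gz
  split_ifs
  · rw [cntP_congr (n - k) (φ := fun M => ¬ 3 ∈ M ∧ R t M) (ψ := RegE t 3) (fun l => R3_iff t l),
      cntP_congr (n - k) (φ := fun M => ¬ 3 ∈ M ∧ R (t + 1) M) (ψ := RegE (t + 1) 3)
        (fun l => R3_iff (t + 1) l)]
    refine Int.ofNat_le.2 (cntP_inj t (t + 1) 3 (n - k) (by omega) (by omega) (by simp) ?_ (by simp))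
    intro h
    have := Nat.le_of_dvd (by norm_num) h
    omega
  · exact le_rfl

theorem Phi_add (u N : ℕ) (f g : ℕ → ℤ) : Phi u (fun k => f k + g k) N = Phi u f N + Phi u g N := by
  unfold Phi
  simp only [sum_add_distrib, sum_sub_distrib]
  ring

theorem main_ineq (t n : ℕ) (ht : 3 ≤ t) :
    Phi t (gz (R t) n) n ≤ Phi (t + 1) (gz (R (t + 1)) n) n := by
  have nd : ∀ s, 1 ≤ s → s < t → ¬ t ∣ s := fun s h1 h2 h => by
    have := Nat.le_of_dvd h1 h
    omega
  have hR : ∀ s, 1 ≤ s → s < t → ∀ M, R t (s ::ₘ M) ↔ R t M := by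
    intro s h1 h2 M
    rw [R_cons]
    exact and_iff_right (nd s h1 h2)
  -- first differences
  have hc1 : ∀ k, gz (R t) n k - gz (R t) n (k + 1) = gz (fun M => ¬ 1 ∈ M ∧ R t M) n k :=
    fun k => gz_split n k 1 le_rfl (R t) (hR 1 le_rfl (by omega))
  have hR1 : ∀ s, 2 ≤ s → s < t → ∀ M, (¬ 1 ∈ s ::ₘ M ∧ R t (s ::ₘ M)) ↔ (¬ 1 ∈ M ∧ R t M) := by
    intro s h1 h2 M
    rw [hR s (by omega) h2, Multiset.mem_cons]
    have : ¬ (1 = s) := by omega
    tauto
  have step1 : Phi t (gz (R t) n) n ≤ Phi (t + 1) (gz (R t) n) n := by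
    apply Phi_mono t n ht
    · intro k
      exact gz_anti n k 1 le_rfl (R t) (hR 1 le_rfl (by omega))
    · intro k
      rw [hc1, hc1]
      exact gz_anti n k 2 (by omega) (fun M => ¬ 1 ∈ M ∧ R t M) (hR1 2 le_rfl (by omega))
    · intro k
      rw [hc1, hc1]
      exact gz_anti n k (t - 1) (by omega) (fun M => ¬ 1 ∈ M ∧ R t M)
        (hR1 (t - 1) (by omega) (by omega))
  have step2 : 0 ≤ Phi (t + 1) (fun k => gz (R (t + 1)) n k - gz (R t) n k) n := by
    apply Phi_nonneg (t + 1) n (by omega)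
    · intro k
      have := gz_R_le t n k (by omega)
      linarith
    · intro k hk
      rw [gz_zero _ _ _ hk, gz_zero _ _ _ hk]
      ring
    · intro hodd k
      have ht4 : 4 ≤ t := by omega
      have h1 : gz (R t) n k - gz (R t) n (k + 3) = gz (fun M => ¬ 3 ∈ M ∧ R t M) n k :=
        gz_split n k 3 (by omega) (R t) (hR 3 (by omega) (by omega))
      have h2 : gz (R (t + 1)) n k - gz (R (t + 1)) n (k + 3) =
          gz (fun M => ¬ 3 ∈ M ∧ R (t + 1) M) n k :=
        gz_split n k 3 (by omega) (R (t + 1)) (fun M => by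
          rw [R_cons]
          apply and_iff_right
          intro h
          have := Nat.le_of_dvd (by norm_num) h
          omega)
      have h3 := gz_R3_le t n k ht4
      linarith
  have e : Phi (t + 1) (gz (R (t + 1)) n) n =
      Phi (t + 1) (gz (R t) n) n + Phi (t + 1) (fun k => gz (R (t + 1)) n k - gz (R t) n k) n := by
    rw [← Phi_add]
    congr 1
    funext k
    ring
  rw [e]
  linarith

/-- Counting partitions with at least two copies of `s`. -/
theorem count_two (t n s : ℕ) (hs : 1 ≤ s) :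
    (cntP n (fun M => 2 ≤ M.count s ∧ R t M) : ℤ) =
      if t ∣ s then 0 else gz (R t) n (2 * s) := by
  have h1 : cntP n (fun M => 2 ≤ M.count s ∧ R t M) =
      cntP n (fun M => s ∈ M ∧ (2 ≤ M.count s ∧ R t M)) := by
    apply cntP_congr
    intro l
    rw [← Multiset.count_pos (a := s)]
    constructor
    · intro h
      exact ⟨by omega, h⟩
    · exact fun h => h.2
  rw [h1, cast_cntP_mem n s hs]
  split_ifs with hd
  · unfold gz
    split_ifs
    · rw [cntP_false]
      · rfl
      · intro l h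
        rw [R_cons] at h
        exact h.2.1 hd
    · rfl
  · unfold gz
    by_cases hn : s ≤ n
    · rw [if_pos hn]
      have h2 : cntP (n - s) (fun M => 2 ≤ (s ::ₘ M).count s ∧ R t (s ::ₘ M)) =
          cntP (n - s) (fun M => s ∈ M ∧ R t M) := by
        apply cntP_congr
        intro l
        rw [R_cons, Multiset.count_cons_self, ← Multiset.count_pos (a := s)]
        constructor
        · rintro ⟨h, _, h'⟩
          exact ⟨by omega, h'⟩
        · rintro ⟨h, h'⟩
          exact ⟨by omega, hd, h'⟩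
      rw [h2, cast_cntP_mem _ s hs]
      unfold gz
      by_cases hn2 : 2 * s ≤ n
      · rw [if_pos (by omega), if_pos hn2, show n - s - s = n - 2 * s by omega]
        congr 1
        apply cntP_congr
        intro l
        rw [R_cons]
        exact and_iff_right hd
      · rw [if_neg (by omega), if_neg hn2]
    · rw [if_neg hn, if_neg (by omega)]

/-- Counting partitions containing `s` but not `s'`. -/
theorem count_one (t n s s' : ℕ) (hs : 1 ≤ s) (hs' : 1 ≤ s') (hne : s ≠ s') :
    (cntP n (fun M => (s ∈ M ∧ s' ∉ M) ∧ R t M) : ℤ) =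
      if t ∣ s then 0 else (gz (R t) n s - (if t ∣ s' then 0 else gz (R t) n (s + s'))) := by
  have h1 : cntP n (fun M => (s ∈ M ∧ s' ∉ M) ∧ R t M) =
      cntP n (fun M => s ∈ M ∧ (s' ∉ M ∧ R t M)) := by
    apply cntP_congr
    intro l
    tauto
  rw [h1, cast_cntP_mem n s hs]
  split_ifs with hd hd'
  · unfold gz
    split_ifs
    · rw [cntP_false]
      · rfl
      · intro l h
        rw [R_cons] at h
        exact h.2.1 hd
    · rfl
  · -- `t ∣ s'`
    unfold gz
    by_cases hn : s ≤ n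
    · rw [if_pos hn, if_pos hn, sub_zero]
      congr 1
      apply cntP_congr
      intro l
      rw [R_cons, Multiset.mem_cons]
      constructor
      · exact fun h => h.2.2
      · intro h
        refine ⟨?_, hd, h⟩
        rintro (h' | h')
        · exact hne h'.symm
        · exact h s' h' hd'
    · rw [if_neg hn, if_neg hn]
      ring
  · unfold gz
    by_cases hn : s ≤ n
    · rw [if_pos hn, if_pos hn, cntP_split (n - s) (R t) (fun M => s' ∈ M)]
      push_cast
      rw [cast_cntP_mem _ s' hs']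
      have h2 : cntP (n - s) (fun M => s' ∉ s ::ₘ M ∧ R t (s ::ₘ M)) =
          cntP (n - s) (fun M => ¬ s' ∈ M ∧ R t M) := by
        apply cntP_congr
        intro l
        rw [R_cons, Multiset.mem_cons]
        have : ¬ s' = s := fun h => hne h.symm
        tauto
      rw [h2]
      unfold gz
      by_cases hn2 : s + s' ≤ n
      · rw [if_pos (by omega), if_pos hn2, show n - s - s' = n - (s + s') by omega,
          cntP_congr (n - (s + s')) (φ := fun M => R t (s' ::ₘ M)) (ψ := R t) (fun l => by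
            rw [R_cons]; exact and_iff_right hd')]
        ring
      · rw [if_neg (by omega), if_neg hn2]
        ring
    · rw [if_neg hn, if_neg hn, if_neg (by omega)]
      ring

end Run7.h355.Hook
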